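import Pool.Agent.Lib.MP_eee7a8_ag.TB.IfaceB

/-!
# TAGBR Part B, module EXE
-/

open Matrix

namespace Pool.Agent.Lib.MP_eee7a8_ag.TB.PB.H12

theorem ev_arcF_mul {s t x y : Cusp} (hst : s ≠ t) :
    (arcF s t).ev x * (arcF s t).ev y < 0 ↔ Cross s t x y := by
  have h : 0 < dt s t * dt s t := mul_self_pos.2 (dt_ne_zero hst)
  have e : (arcF s t).ev x * (arcF s t).ev y =
      (dt s t * dt s t) * ((dt s x * dt t x) * (dt s y * dt t y)) := by
    rw [ev_arcF, ev_arcF, dt_symm x s, dt_symm y s]; ring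
  rw [e]
  unfold Cross
  constructor
  · intro h5
    by_contra h6
    push Not at h6
    have := mul_nonneg h.le h6
    omega
  · intro h5
    exact mul_neg_of_pos_of_neg h h5

theorem E_ne {G : Subgroup SLZ} {ι : Type} {T : Fam ι} (hT : T.NonCross G) {a b : Cusp}
    (h : T.E G a b) : a ≠ b := by
  obtain ⟨i, g, hg, H⟩ := h
  rintro rfl
  have := hT.ne i
  rcases H with ⟨h1, h2⟩ | ⟨h1, h2⟩
  · exact this (smul_left_cancel g (h1.trans h2.symm))
  · exact this (smul_left_cancel g (h1.trans h2.symm))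

theorem exe (h1 : ARCFAM_S) (h2 : FIN_S) (h3 : DENSE_S) : EXE_S := by
  intro G ι _ T h hT ht
  have hS : SFam G (strandsQ G T) := (h1 G ι inferInstance T hT.toNonCross).toSFam
  have hfin := h2 G (strandsQ G T) hS
  have sne := fun v => side_ne_zero (h := h) (lt_of_lt_of_le ht (le_abs_self _)) v
  have key : ∀ (n : ℕ) (u v : Cusp), side h u < 0 → 0 < side h v →
      {f | f ∈ strandsQ G T ∧ f.ev u * f.ev v < 0}.ncard = n →
      ∃ u v, T.E G u v ∧ side h u < 0 ∧ 0 < side h v := by
    intro n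
    induction n using Nat.strong_induction_on with
    | _ n ih =>
      intro u v hu hv hn
      have huv : u ≠ v := by rintro rfl; omega
      rcases hT.star u v huv with H | ⟨c, d, huc, hud, hcd, hX⟩
      · exact ⟨u, v, H, hu, hv⟩
      rcases lt_or_gt_of_ne (sne c) with hc | hc
      swap
      · exact ⟨u, c, huc, hu, hc⟩
      refine ih _ ?_ c v hc hv rfl
      rw [← hn]
      apply Set.ncard_lt_ncard _ (hfin u v)
      constructor
      · rintro f ⟨⟨s, t, hst, rfl⟩, hf⟩
        refine ⟨⟨s, t, hst, rfl⟩, ?_⟩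
        have hne := E_ne hT.toNonCross hst
        rw [ev_arcF_mul hne] at hf ⊢
        rcases (cross_comm_left.1 hX).side (cross_comm_right.1 hf) with H | H
        · exact cross_comm_right.1 H
        · exact absurd H (hT.nocross _ _ _ _ hst hcd)
      · intro hsub
        have hne := E_ne hT.toNonCross hcd
        have h5 : arcF c d ∈ {f | f ∈ strandsQ G T ∧ f.ev u * f.ev v < 0} :=
          ⟨⟨c, d, hcd, rfl⟩, (ev_arcF_mul hne).2 (cross_swap.1 hX)⟩
        have h6 := (hsub h5).2
        rw [ev_arcF c d c, dt_self] at h6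
        simp at h6
  obtain ⟨⟨u, hu, -⟩, ⟨v, hv, -⟩⟩ := h3 h ht 0 1 (by norm_num)
  exact key _ u v hu hv rfl

end Pool.Agent.Lib.MP_eee7a8_ag.TB.PB.H12
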