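import Pool.Agent.Lib.MP_eee7a8_ag.TB.IfaceB

/-!
# TAGBR Part B, module AXC
-/

open Matrix

namespace Pool.Agent.Lib.MP_eee7a8_ag.TB.PB.H12

theorem disc_sideF_pos {h : SLZ} (ht : 2 < |h.1.trace|) : 0 < (sideF h).disc := by
  rw [disc_sideF]
  have h5 : (3 : ℤ) ≤ |h.1.trace| := by omega
  have h6 : |h.1.trace| ^ 2 = h.1.trace ^ 2 := sq_abs _
  rw [← h6]
  nlinarith

theorem axesCross_neg {h k : SLZ} (H : AxesCross (-h) k) : AxesCross h k := by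
  obtain ⟨⟨a, ha, ha'⟩, ⟨b, hb, hb'⟩, ⟨c, hc, hc'⟩, ⟨d, hd, hd'⟩⟩ := H
  rw [side_neg] at ha hb hc hd
  exact ⟨⟨c, by omega, hc'⟩, ⟨d, by omega, hd'⟩, ⟨a, by omega, ha'⟩, ⟨b, by omega, hb'⟩⟩

theorem axc (h1 : NOCR_S) (h2 : CUT_S) (h3 : DENSE_S) : AXC_S := by
  have key : ∀ h k : SLZ, 2 < h.1.trace → 2 < |k.1.trace| → (sideF h).res (sideF k) < 0 →
      AxesCross h k := by
    intro h k hh hk hres
    obtain ⟨σ, p, q, hσ, hN, hP⟩ := h2 h (sideF k) hh (disc_sideF_pos hk) hres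
    obtain ⟨⟨a, ha, ha1, -⟩, ⟨b, hb, hb1, -⟩⟩ :
        (∃ u, side h u < 0 ∧ p < pos h u ∧ pos h u < p + 1) ∧
        (∃ v, 0 < side h v ∧ q < pos h v ∧ pos h v < q + 1) :=
      ⟨(h3 h hh p (p + 1) (by linarith)).1, (h3 h hh q (q + 1) (by linarith)).2⟩
    obtain ⟨⟨c, hc, -, hc1⟩, ⟨d, hd, -, hd1⟩⟩ :
        (∃ u, side h u < 0 ∧ p - 1 < pos h u ∧ pos h u < p) ∧
        (∃ v, 0 < side h v ∧ q - 1 < pos h v ∧ pos h v < q) :=
      ⟨(h3 h hh (p - 1) p (by linarith)).1, (h3 h hh (q - 1) q (by linarith)).2⟩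
    have ea := (hN a ha).1.2 ha1
    have eb := (hP b hb).1.2 hb1
    have ec := (hN c hc).2.2 hc1
    have ed := (hP d hd).2.2 hd1
    rw [ev_sideF] at ea eb ec ed
    rcases hσ with rfl | rfl
    · exact ⟨⟨b, hb, by omega⟩, ⟨d, hd, by omega⟩, ⟨a, ha, by omega⟩, ⟨c, hc, by omega⟩⟩
    · exact ⟨⟨d, hd, by omega⟩, ⟨b, hb, by omega⟩, ⟨c, hc, by omega⟩, ⟨a, ha, by omega⟩⟩
  intro h k hh hk
  constructor
  · rintro ⟨⟨a, ha, ha'⟩, ⟨b, hb, hb'⟩, ⟨c, hc, hc'⟩, ⟨d, hd, hd'⟩⟩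
    by_contra hn
    push Not at hn
    have := h1 _ _ (disc_sideF_pos hh) (disc_sideF_pos hk) hn
    simp only [ev_sideF] at this
    rcases this with H | H | H | H
    · have := H c hc; omega
    · have := H b hb; omega
    · have := H d hd; omega
    · have := H a ha; omega
  · intro hres
    rcases lt_abs.1 hh with h4 | h4
    · exact key h k h4 hk hres
    · apply axesCross_neg
      apply key (-h) k ?_ hk
      · rw [sideF_neg]
        have := res_neg (sideF h) (sideF k)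
        unfold QF.neg at this
        rw [this]; exact hres
      · rw [Matrix.SpecialLinearGroup.coe_neg, Matrix.trace_neg]; exact h4

end Pool.Agent.Lib.MP_eee7a8_ag.TB.PB.H12
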