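import Pool.Agent.Lib.MP_eee7a8_ag.TB.IfaceB

/-!
# TAGBR Part B: the form `f` in the coordinates `al h`, `be h`
-/

open Matrix

namespace Pool.Agent.Lib.MP_eee7a8_ag.TB.PB.H12

/-- The lower left entry of a hyperbolic element is not zero. -/
theorem r_ne {h : SLZ} (ht : 2 < h.1.trace) : h.1 1 0 ≠ 0 := by
  intro hr
  have hd := det_eq h
  rw [hr] at hd
  rw [Matrix.trace_fin_two] at ht
  have h1 : h.1 0 0 * h.1 1 1 = 1 := by linarith
  rcases Int.mul_eq_one_iff_eq_one_or_neg_one.1 h1 with ⟨h6, h7⟩ | ⟨h6, h7⟩ <;> omega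

theorem D_pos {h : SLZ} (ht : 2 < h.1.trace) : (0 : ℝ) < (h.1.trace : ℝ) ^ 2 - 4 := by
  have : (2 : ℝ) < (h.1.trace : ℝ) := by exact_mod_cast ht
  nlinarith

theorem sqd_pos {h : SLZ} (ht : 2 < h.1.trace) : 0 < sqd h := Real.sqrt_pos.2 (D_pos ht)

theorem sqd_sq {h : SLZ} (ht : 2 < h.1.trace) : sqd h ^ 2 = (h.1.trace : ℝ) ^ 2 - 4 :=
  Real.sq_sqrt (D_pos ht).le

theorem det_real (h : SLZ) : (h.1 0 0 : ℝ) * h.1 1 1 - h.1 0 1 * h.1 1 0 = 1 := by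
  exact_mod_cast det_eq h

theorem sqd_sq' {h : SLZ} (ht : 2 < h.1.trace) :
    sqd h ^ 2 = ((h.1 0 0 : ℝ) - h.1 1 1) ^ 2 + 4 * (h.1 0 1 * h.1 1 0) := by
  rw [sqd_sq ht, Matrix.trace_fin_two]
  have := det_real h
  push_cast
  linear_combination 4 * this

/-- The two fixed points. -/
noncomputable def xm (h : SLZ) : ℝ := ((h.1 0 0 : ℝ) - h.1 1 1 - sqd h) / (2 * h.1 1 0)
noncomputable def xp (h : SLZ) : ℝ := ((h.1 0 0 : ℝ) - h.1 1 1 + sqd h) / (2 * h.1 1 0)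

theorem al_def (h : SLZ) (v : Cusp) : al h v = v.x - xm h * v.y := rfl
theorem be_def (h : SLZ) (v : Cusp) :
    be h v = -((h.1 1 0 : ℝ) / sqd h) * (v.x - xp h * v.y) := rfl

theorem r_ne' {h : SLZ} (ht : 2 < h.1.trace) : (h.1 1 0 : ℝ) ≠ 0 := by
  exact_mod_cast r_ne ht

/-- `r (x₊ - x₋) = √D`. -/
theorem xp_sub {h : SLZ} (ht : 2 < h.1.trace) : (h.1 1 0 : ℝ) * (xp h - xm h) = sqd h := by
  have := r_ne' ht
  unfold xp xm
  field_simp
  ring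

/-- `r (x₊ + x₋) = p - s`. -/
theorem xp_add {h : SLZ} (ht : 2 < h.1.trace) :
    (h.1 1 0 : ℝ) * (xp h + xm h) = h.1 0 0 - h.1 1 1 := by
  have := r_ne' ht
  unfold xp xm
  field_simp
  ring

/-- `r x₊ x₋ = - q`. -/
theorem xp_mul {h : SLZ} (ht : 2 < h.1.trace) :
    (h.1 1 0 : ℝ) * (xp h * xm h) = -h.1 0 1 := by
  have hr := r_ne' ht
  have h1 := xp_sub ht
  have h2 := xp_add ht
  have h3 := sqd_sq' ht
  have h4 : 4 * (h.1 1 0 : ℝ) * ((h.1 1 0 : ℝ) * (xp h * xm h)) =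
      4 * (h.1 1 0 : ℝ) * (-h.1 0 1) := by
    have : 4 * (h.1 1 0 : ℝ) * ((h.1 1 0 : ℝ) * (xp h * xm h)) =
      ((h.1 1 0 : ℝ) * (xp h + xm h)) ^ 2 - ((h.1 1 0 : ℝ) * (xp h - xm h)) ^ 2 := by ring
    rw [this, h1, h2, h3]; ring
  exact mul_left_cancel₀ (mul_ne_zero (by norm_num) hr) h4

/-- The coefficients of `f` in the coordinates `al`, `be`. -/
noncomputable def cA (h : SLZ) (f : QF) : ℝ :=
  (f.a * xp h ^ 2 + f.b * xp h + f.c) * (h.1 1 0 / sqd h) ^ 2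
noncomputable def cB (h : SLZ) (f : QF) : ℝ :=
  (2 * f.a * xm h * xp h + f.b * (xm h + xp h) + 2 * f.c) * (h.1 1 0 / sqd h)
noncomputable def cC (h : SLZ) (f : QF) : ℝ := f.a * xm h ^ 2 + f.b * xm h + f.c

/-- The inverse coordinate change. -/
theorem coord {h : SLZ} (ht : 2 < h.1.trace) (v : Cusp) :
    (v.y : ℝ) = (h.1 1 0 / sqd h) * al h v + be h v ∧
    (v.x : ℝ) = (h.1 1 0 / sqd h) * xp h * al h v + xm h * be h v := by
  have hs := (sqd_pos ht).ne'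
  have h1 := xp_sub ht
  have h2 : (h.1 1 0 : ℝ) / sqd h * (xp h - xm h) = 1 := by
    rw [div_mul_eq_mul_div, h1, div_self hs]
  constructor
  · rw [al_def, be_def]
    linear_combination (-(v.y : ℝ)) * h2
  · rw [al_def, be_def]
    linear_combination (-(v.x : ℝ)) * h2

theorem ev_coord {h : SLZ} (ht : 2 < h.1.trace) (f : QF) (v : Cusp) :
    (f.ev v : ℝ) = cA h f * al h v ^ 2 + cB h f * al h v * be h v + cC h f * be h v ^ 2 := by
  obtain ⟨hy, hx⟩ := coord ht v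
  unfold QF.ev cA cB cC
  push_cast
  rw [hy, hx]
  ring

theorem disc_coord {h : SLZ} (ht : 2 < h.1.trace) (f : QF) :
    cB h f ^ 2 - 4 * cA h f * cC h f = f.disc := by
  have hs := (sqd_pos ht).ne'
  have h1 := xp_sub ht
  have h2 : (h.1 1 0 : ℝ) / sqd h * (xp h - xm h) = 1 := by
    rw [div_mul_eq_mul_div, h1, div_self hs]
  unfold cA cB cC QF.disc
  push_cast
  generalize (h.1 1 0 : ℝ) / sqd h = t at *
  have h3 : (t * (xp h - xm h)) ^ 2 = 1 := by rw [h2]; ring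
  linear_combination ((f.b : ℝ) ^ 2 - 4 * f.a * f.c) * h3

theorem res_coord {h : SLZ} (ht : 2 < h.1.trace) (f : QF) :
    sqd h ^ 2 * (cA h f * cC h f) = (sideF h).res f := by
  have hs := (sqd_pos ht).ne'
  have e1 := xp_add ht
  have e2 := xp_mul ht
  have h0 : sqd h ^ 2 * (cA h f * cC h f) = (h.1 1 0 : ℝ) ^ 2 *
      ((f.a * xp h ^ 2 + f.b * xp h + f.c) * (f.a * xm h ^ 2 + f.b * xm h + f.c)) := by
    unfold cA cC
    field_simp
  rw [h0]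
  unfold QF.res sideF
  push_cast
  have e3 : (h.1 1 1 : ℝ) - h.1 0 0 = -((h.1 1 0 : ℝ) * (xp h + xm h)) := by rw [e1]; ring
  rw [e3, ← e2]
  ring

theorem rho_def (h : SLZ) (v : Cusp) : rho h v = al h v / be h v := rfl

theorem ev_rho {h : SLZ} (ht : 2 < h.1.trace) (f : QF) (v : Cusp) (hb : be h v ≠ 0) :
    (f.ev v : ℝ) = be h v ^ 2 * (cA h f * rho h v ^ 2 + cB h f * rho h v + cC h f) := by
  rw [ev_coord ht, rho_def]
  field_simp

end Pool.Agent.Lib.MP_eee7a8_ag.TB.PB.H12
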