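import Pool.Agent.Lib.MP_eee7a8_ag.TB.H12.Coord

/-!
# TAGBR Part B, module CUT
-/

open Matrix

namespace Pool.Agent.Lib.MP_eee7a8_ag.TB.PB.H12

/-- Roots of a real quadratic with coefficients `A`, `C` of opposite sign. -/
theorem roots {A B C : ℝ} (h : A * C < 0) : ∃ σ : ℤ, (σ = 1 ∨ σ = -1) ∧ ∃ K x y : ℝ,
    0 < K ∧ 0 < x ∧ 0 < y ∧ ∀ t : ℝ, (σ : ℝ) * (A * t ^ 2 + B * t + C) = K * ((t - x) * (t + y)) := by
  have hA : A ≠ 0 := by rintro rfl; simp at h
  obtain ⟨σ, hσ, hK⟩ : ∃ σ : ℤ, (σ = 1 ∨ σ = -1) ∧ 0 < (σ : ℝ) * A := by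
    rcases lt_or_gt_of_ne hA with h1 | h1
    · exact ⟨-1, Or.inr rfl, by push_cast; linarith⟩
    · exact ⟨1, Or.inl rfl, by push_cast; linarith⟩
  have hs : (σ : ℝ) * σ = 1 := by rcases hσ with rfl | rfl <;> norm_num
  have hΔ : 0 < B ^ 2 - 4 * A * C := by nlinarith [sq_nonneg B]
  set s := Real.sqrt (B ^ 2 - 4 * A * C) with hsd
  have hs2 : s ^ 2 = B ^ 2 - 4 * A * C := Real.sq_sqrt hΔ.le
  have hs0 : 0 ≤ s := Real.sqrt_nonneg _
  have hlt : (σ * B) ^ 2 < s ^ 2 := by
    have : (σ * B) ^ 2 = B ^ 2 := by linear_combination B ^ 2 * hs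
    rw [this, hs2]; linarith
  have habs := abs_lt_of_sq_lt_sq hlt hs0
  rw [abs_lt] at habs
  refine ⟨σ, hσ, σ * A, (-(σ * B) + s) / (2 * (σ * A)), (σ * B + s) / (2 * (σ * A)), hK,
    div_pos (by linarith [habs.2]) (by linarith), div_pos (by linarith [habs.1]) (by linarith), ?_⟩
  intro t
  have h2 : 2 * ((σ : ℝ) * A) ≠ 0 := by positivity
  have hx : 2 * ((σ : ℝ) * A) * ((-(σ * B) + s) / (2 * (σ * A))) = -(σ * B) + s :=
    mul_div_cancel₀ _ h2
  have hy : 2 * ((σ : ℝ) * A) * ((σ * B + s) / (2 * (σ * A))) = σ * B + s :=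
    mul_div_cancel₀ _ h2
  generalize (-(σ * B) + s) / (2 * (σ * A)) = x at *
  generalize (σ * B + s) / (2 * (σ * A)) = y at *
  apply mul_left_cancel₀ h2
  have h3 : 2 * ((σ : ℝ) * A) * (σ * A * ((t - x) * (t + y))) =
      (2 * (σ * A) * t - 2 * (σ * A) * x) * (2 * (σ * A) * t + 2 * (σ * A) * y) / 2 := by ring
  rw [h3, hx, hy]
  linear_combination (1 / 2 : ℝ) * hs2 + (2 * A * C - B ^ 2 / 2) * hs

theorem cut (h1 : RHO_S) : CUT_S := by
  intro h f ht hf hres
  obtain ⟨hl, hbe, hrho, hside, -, -, -⟩ := h1 h ht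
  have hAC : cA h f * cC h f < 0 := by
    have h2 := res_coord ht f
    have h3 : ((sideF h).res f : ℝ) < 0 := by exact_mod_cast hres
    have h4 : 0 < sqd h ^ 2 := by have := sqd_pos ht; positivity
    by_contra hn
    push Not at hn
    have := mul_nonneg h4.le hn
    linarith
  obtain ⟨σ, hσ, K, x, y, hK, hx, hy, hq⟩ := roots (B := cB h f) hAC
  have hlog : 0 < 2 * Real.log (lmd h) := by
    have := Real.log_pos hl; linarith
  have key : ∀ v, (σ * f.ev v : ℝ) = (be h v ^ 2 * K) * ((rho h v - x) * (rho h v + y)) := by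
    intro v
    rw [ev_rho ht f v (hbe v)]
    linear_combination (be h v ^ 2) * hq (rho h v)
  have hKv : ∀ v, 0 < be h v ^ 2 * K := fun v => mul_pos (by have := hbe v; positivity) hK
  have cast1 : ∀ v, (0 < σ * f.ev v ↔ (0 : ℝ) < σ * f.ev v) := fun v => by
    rw [← Int.cast_mul, Int.cast_pos]
  have cast2 : ∀ v, (σ * f.ev v < 0 ↔ (σ * f.ev v : ℝ) < 0) := fun v => by
    rw [← Int.cast_mul, Int.cast_lt_zero]
  have e1 : ∀ v, (0 < σ * f.ev v ↔ 0 < (rho h v - x) * (rho h v + y)) := fun v => by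
    rw [cast1, key, mul_pos_iff_of_pos_left (hKv v)]
  have e2 : ∀ v, (σ * f.ev v < 0 ↔ (rho h v - x) * (rho h v + y) < 0) := fun v => by
    rw [cast2, key]
    constructor
    · intro h5
      by_contra h6
      push Not at h6
      have := mul_nonneg (hKv v).le h6
      linarith
    · intro h5
      exact mul_neg_of_pos_of_neg (hKv v) h5
  refine ⟨σ, Real.log x / (2 * Real.log (lmd h)), Real.log y / (2 * Real.log (lmd h)), hσ, ?_, ?_⟩
  · intro u hu
    have hr := (hside u).1 hu
    have hyp : 0 < rho h u + y := by linarith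
    unfold pos
    rw [abs_of_pos hr, div_lt_div_iff_of_pos_right hlog, div_lt_div_iff_of_pos_right hlog,
      Real.log_lt_log_iff hx hr, Real.log_lt_log_iff hr hx, e1, e2, mul_pos_iff_of_pos_right hyp]
    constructor
    · exact sub_pos
    · constructor
      · intro h5
        by_contra h6
        push Not at h6
        have := mul_nonneg (sub_nonneg.2 h6) hyp.le
        linarith
      · intro h5
        exact mul_neg_of_neg_of_pos (sub_neg.2 h5) hyp
  · intro v hv
    have hr : rho h v < 0 := by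
      rcases lt_or_gt_of_ne (hrho v) with h5 | h5
      · exact h5
      · have := (hside v).2 h5
        omega
    have hr' : 0 < -rho h v := by linarith
    have hxn : rho h v - x < 0 := by linarith
    unfold pos
    rw [abs_of_neg hr, div_lt_div_iff_of_pos_right hlog, div_lt_div_iff_of_pos_right hlog,
      Real.log_lt_log_iff hy hr', Real.log_lt_log_iff hr' hy, e1, e2]
    constructor
    · constructor
      · intro h5
        by_contra h6
        push Not at h6
        have := mul_nonpos_of_nonpos_of_nonneg hxn.le (by linarith : 0 ≤ rho h v + y)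
        linarith
      · intro h5
        exact mul_pos_of_neg_of_neg hxn (by linarith)
    · constructor
      · intro h5
        by_contra h6
        push Not at h6
        have := mul_nonneg_of_nonpos_of_nonpos hxn.le (by linarith : rho h v + y ≤ 0)
        linarith
      · intro h5
        exact mul_neg_of_neg_of_pos hxn (by linarith)

end Pool.Agent.Lib.MP_eee7a8_ag.TB.PB.H12
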