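import Pool.Agent.Lib.MP_eee7a8_ag.TB.IfaceB

/-!
# TAGBR Part B, module EK
-/

open Matrix

namespace Pool.Agent.Lib.MP_eee7a8_ag.TB.PB.H12

theorem sgn_aux {c x y : ℝ} (hc : 0 < c) :
    SignType.sign ((if x < 0 then c * x else x) - (if y < 0 then c * y else y)) =
      SignType.sign (x - y) := by
  rcases lt_trichotomy x y with h | h | h
  · rw [sign_neg (sub_neg.2 h), sign_neg]
    split_ifs with h1 h2 h2
    · have := mul_lt_mul_of_pos_left h hc
      linarith
    · have := mul_neg_of_pos_of_neg hc h1
      push Not at h2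
      linarith
    · exfalso; linarith
    · linarith
  · subst h
    rw [sub_self, sub_self]
  · rw [sign_pos (sub_pos.2 h), sign_pos]
    split_ifs with h1 h2 h2
    · have := mul_lt_mul_of_pos_left h hc
      linarith
    · exfalso; linarith
    · have := mul_neg_of_pos_of_neg hc h2
      push Not at h1
      linarith
    · linarith

theorem side_zpow (k : SLZ) (n : ℤ) (v : Cusp) : side k (k ^ n • v) = side k v := by
  have h := side_conj (k ^ n) k v
  have h2 : k ^ n * k * (k ^ n)⁻¹ = k := by
    rw [(Commute.refl k).zpow_left n |>.eq]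
    group
  rwa [h2] at h

theorem rho_zpow (h1 : RHO_S) {k : SLZ} (hk : 2 < k.1.trace) (n : ℤ) (v : Cusp) :
    rho k (k ^ n • v) = (lmd k ^ 2) ^ n * rho k v := by
  obtain ⟨hl, -, -, -, hs, -, -⟩ := h1 k hk
  have hl0 : lmd k ^ 2 ≠ 0 := by positivity
  induction n using Int.induction_on with
  | zero => simp
  | succ i ih =>
    have e : k ^ ((i : ℤ) + 1) = k * k ^ (i : ℤ) := by group
    rw [e, mul_smul, hs, ih, zpow_add₀ hl0, zpow_one]
    ring
  | pred i ih =>
    have h2 := hs (k ^ (-(i : ℤ) - 1) • v)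
    have e : k * k ^ (-(i : ℤ) - 1) = k ^ (-(i : ℤ)) := by group
    rw [← mul_smul, e, ih] at h2
    rw [zpow_sub₀ hl0, zpow_one, div_mul_eq_mul_div, h2, mul_div_assoc, mul_comm,
      div_mul_cancel₀ _ hl0]

theorem ek (h1 : RHO_S) : EK_S := by
  intro k n hk a b c d
  obtain ⟨hl, -, hne, hside, -, -, hcr⟩ := h1 k hk
  have hc : (0 : ℝ) < (lmd k ^ 2) ^ n := by
    have : 0 < lmd k ^ 2 := by positivity
    exact zpow_pos this n
  have e : ∀ a, rho k (if 0 < side k a then k ^ n • a else a) =
      if rho k a < 0 then (lmd k ^ 2) ^ n * rho k a else rho k a := by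
    intro a
    have hiff : 0 < side k a ↔ rho k a < 0 := by
      have h3 := hside a
      have h4 := side_ne_zero (h := k) (lt_of_lt_of_le hk (le_abs_self _)) a
      constructor
      · intro h5
        by_contra h6
        push Not at h6
        have := h3.2 (lt_of_le_of_ne h6 (hne a).symm)
        omega
      · intro h5
        by_contra h6
        push Not at h6
        have := h3.1 (lt_of_le_of_ne h6 h4)
        linarith
    by_cases h : 0 < side k a
    · rw [if_pos h, if_pos (hiff.1 h), rho_zpow h1 hk]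
    · rw [if_neg h, if_neg (fun h' => h (hiff.2 h'))]
  rw [hcr, hcr, e, e, e, e]
  have f := fun z w => sgn_aux (x := rho k z) (y := rho k w) hc
  rw [← sign_eq_neg_one_iff, sign_mul, sign_mul, sign_mul, f, f, f, f, ← sign_mul, ← sign_mul,
    ← sign_mul, sign_eq_neg_one_iff]

end Pool.Agent.Lib.MP_eee7a8_ag.TB.PB.H12
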