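import Pool.Agent.Lib.MP_eee7a8_ag.TB.IfaceB

/-!
# TAGBR Part B, module NEXT
-/

open Matrix

namespace Pool.Agent.Lib.MP_eee7a8_ag.TB.PB.H12

theorem E_symm {G : Subgroup SLZ} {ι : Type} {T : Fam ι} {a b : Cusp} (h : T.E G a b) :
    T.E G b a := by
  obtain ⟨i, g, hg, H⟩ := h
  exact ⟨i, g, hg, H.symm⟩

theorem E_smul {G : Subgroup SLZ} {ι : Type} {T : Fam ι} {a b : Cusp} (h : T.E G a b) {g : SLZ}
    (hg : g ∈ G) : T.E G (g • a) (g • b) := by
  obtain ⟨i, g', hg', H⟩ := h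
  refine ⟨i, g * g', G.mul_mem hg hg', ?_⟩
  rcases H with ⟨h1, h2⟩ | ⟨h1, h2⟩
  · left; rw [mul_smul, mul_smul, h1, h2]; exact ⟨rfl, rfl⟩
  · right; rw [mul_smul, mul_smul, h1, h2]; exact ⟨rfl, rfl⟩

/-- One of two points on different sides of the edge `uv` is ahead of it. -/
theorem ahead (h1 : POS_S) {h : SLZ} (ht : 2 < h.1.trace) {a f u v : Cusp} (hu : side h u < 0)
    (hv : 0 < side h v) (hc : Cross a f u v) :
    ((side h a < 0 ∧ pos h u < pos h a) ∨ (0 < side h a ∧ pos h v < pos h a)) ∨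
    ((side h f < 0 ∧ pos h u < pos h f) ∨ (0 < side h f ∧ pos h v < pos h f)) := by
  obtain ⟨-, p2, p3, p4, -, -, -⟩ := h1 h ht
  have sa := side_ne_zero (h := h) (lt_of_lt_of_le ht (le_abs_self _)) a
  have sf := side_ne_zero (h := h) (lt_of_lt_of_le ht (le_abs_self _)) f
  rcases lt_or_gt_of_ne sa with ha | ha <;> rcases lt_or_gt_of_ne sf with hf | hf
  · have := (p3 a f u v ha hf hu hv).1 hc
    rcases mul_neg_iff.1 this with ⟨h3, h4⟩ | ⟨h3, h4⟩
    · right; left; exact ⟨hf, by linarith⟩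
    · left; left; exact ⟨ha, by linarith⟩
  · have := (p2 a u f v ha hu hf hv).1 hc
    rcases mul_neg_iff.1 this with ⟨h3, h4⟩ | ⟨h3, h4⟩
    · left; left; exact ⟨ha, by linarith⟩
    · right; right; exact ⟨hf, by linarith⟩
  · have := (p2 f u a v hf hu ha hv).1 (cross_comm_left.1 hc)
    rcases mul_neg_iff.1 this with ⟨h3, h4⟩ | ⟨h3, h4⟩
    · right; left; exact ⟨hf, by linarith⟩
    · left; right; exact ⟨ha, by linarith⟩
  · have := (p4 a f v u ha hf hv hu).1 (cross_comm_right.1 hc)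
    rcases mul_neg_iff.1 this with ⟨h3, h4⟩ | ⟨h3, h4⟩
    · right; right; exact ⟨hf, by linarith⟩
    · left; right; exact ⟨ha, by linarith⟩

theorem next (h1 : POS_S) : NEXT_S := by
  intro G ι T h hT ht u v huv hu hv
  obtain ⟨-, p2, p3, p4, -, p6, -⟩ := h1 h ht
  have nc := hT.nocross
  have step : ∀ w, T.E G w u → T.E G w v →
      ((side h w < 0 ∧ pos h u < pos h w) ∨ (0 < side h w ∧ pos h v < pos h w)) →
      ∃ u' v', T.E G u' v' ∧ side h u' < 0 ∧ 0 < side h v' ∧
      ((u' = u ∧ pos h v < pos h v' ∧ T.E G v v') ∨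
        (v' = v ∧ pos h u < pos h u' ∧ T.E G u u')) ∧
      ∀ a b, T.E G a b → side h a < 0 → 0 < side h b → pos h u ≤ pos h a → pos h v ≤ pos h b →
        (a = u ∧ b = v) ∨ (pos h u' ≤ pos h a ∧ pos h v' ≤ pos h b) := by
    intro w hwu hwv H
    rcases H with ⟨hw, hlt⟩ | ⟨hw, hlt⟩
    · refine ⟨w, v, hwv, hw, hv, Or.inr ⟨rfl, hlt, E_symm hwu⟩, ?_⟩
      intro a b hab ha hb hua hvb
      by_cases hn : pos h w ≤ pos h a
      · exact Or.inr ⟨hn, hvb⟩
      push Not at hn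
      rcases lt_or_eq_of_le hua with h3 | h3
      · exact absurd ((p3 u w a b hu hw ha hb).2
          (mul_neg_of_pos_of_neg (by linarith) (by linarith))) (nc _ _ _ _ (E_symm hwu) hab)
      · have hau : u = a := p6 u a (mul_pos_of_neg_of_neg hu ha) h3
        subst hau
        rcases lt_or_eq_of_le hvb with h4 | h4
        · exact absurd ((p2 u w b v hu hw hb hv).2
            (mul_neg_of_neg_of_pos (by linarith) (by linarith))) (nc _ _ _ _ hab hwv)
        · exact Or.inl ⟨rfl, (p6 v b (mul_pos hv hb) h4).symm⟩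
    · refine ⟨u, w, E_symm hwu, hu, hw, Or.inl ⟨rfl, hlt, E_symm hwv⟩, ?_⟩
      intro a b hab ha hb hua hvb
      by_cases hn : pos h w ≤ pos h b
      · exact Or.inr ⟨hua, hn⟩
      push Not at hn
      rcases lt_or_eq_of_le hvb with h3 | h3
      · exact absurd ((p4 v w b a hv hw hb ha).2
          (mul_neg_of_pos_of_neg (by linarith) (by linarith)))
          (nc _ _ _ _ (E_symm hwv) (E_symm hab))
      · have hbv : v = b := p6 v b (mul_pos hv hb) h3
        subst hbv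
        rcases lt_or_eq_of_le hua with h4 | h4
        · exact absurd ((p2 a u v w ha hu hv hw).2
            (mul_neg_of_pos_of_neg (by linarith) (by linarith))) (nc _ _ _ _ hab (E_symm hwu))
        · exact Or.inl ⟨(p6 u a (mul_pos_of_neg_of_neg hu ha) h4).symm, rfl⟩
  obtain ⟨a, f, hau, hav, hfu, hfv, hc⟩ := hT.tri u v huv
  rcases ahead h1 ht hu hv hc with H | H
  · exact step a hau hav H
  · exact step f hfu hfv H

end Pool.Agent.Lib.MP_eee7a8_ag.TB.PB.H12
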